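import Pool.Agent.N662.SE.Exp2

/-!
# Lower bounds for the wandering exponent
-/

set_option autoImplicit false

open MeasureTheory ProbabilityTheory Filter Topology

namespace Pool.Agent.T9h62.DP

open TH967.DP (Step pos energy)
open Pool.Agent.N662.SE

variable {d : ℕ}

lemma le_wander (hd : 1 ≤ d) {Ω : Type} [MeasurableSpace Ω] {P : Measure Ω}
    [IsProbabilityMeasure P] {ω : ℕ → (Fin d → ℤ) → Ω → ℝ} {β : ℝ} {h v : Fin d → ℝ} {s₀ : ℝ}
    (H : ∀ b : ℝ, 0 < b → b < s₀ → ∃ c : ℝ, 0 < c ∧ ∀ᵐ x ∂P, ∃ᶠ n : ℕ in atTop,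
      polymer β h (fun i y => ω i y x) n {w | ∀ i ≤ n, dev v w i ≤ (n : ℝ) ^ b} ≤
        Real.exp (-(n : ℝ) ^ c)) : s₀ ≤ wander P ω β h v := by
  apply le_csInf ⟨2, two_mem hd ω β h v⟩
  rintro b ⟨hb0, hb⟩
  by_contra hcon
  push Not at hcon
  obtain ⟨c, hc0, h2⟩ := H b hb0 hcon
  have h3 : ∀ᵐ x ∂P, liminf (fun n : ℕ => polymer β h (fun i y => ω i y x) n
      {w | ∀ i ≤ n, dev v w i ≤ (n : ℝ) ^ b}) atTop ≤ 1 / 2 := by
    filter_upwards [h2] with x hx
    apply liminf_le_of_frequently_le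
    · have h4 : ∀ᶠ n : ℕ in atTop, Real.exp (-(n : ℝ) ^ c) ≤ 1 / 2 := by
        have h5 : Tendsto (fun n : ℕ => (n : ℝ) ^ c) atTop atTop :=
          (tendsto_rpow_atTop hc0).comp tendsto_natCast_atTop_atTop
        have h6 := Real.tendsto_exp_neg_atTop_nhds_zero.comp h5
        exact (h6.eventually (gt_mem_nhds (by norm_num : (0 : ℝ) < 1 / 2))).mono
          fun n hn => le_of_lt hn
      refine (hx.and_eventually h4).mono ?_
      rintro n ⟨h5, h6⟩
      exact h5.trans h6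
    · refine ⟨0, ?_⟩
      rw [eventually_map]
      exact Eventually.of_forall fun n => polymer_nonneg _ _ _ _ _
  have h4 : ∫ x, liminf (fun n : ℕ => polymer β h (fun i y => ω i y x) n
      {w | ∀ i ≤ n, dev v w i ≤ (n : ℝ) ^ b}) atTop ∂P ≤
      ∫ _x, (1 / 2 : ℝ) ∂P := by
    apply integral_mono_of_nonneg
    · refine Eventually.of_forall fun x => ?_
      apply le_liminf_of_le
      · refine ⟨1, ?_⟩
        intro y hy
        rw [eventually_map] at hy
        obtain ⟨n, hn⟩ := hy.exists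
        exact hn.trans (polymer_le_one hd _ _ _ _ _)
      · exact Eventually.of_forall fun n => polymer_nonneg _ _ _ _ _
    · exact integrable_const _
    · exact h3
  rw [hb] at h4
  simp at h4
  norm_num at h4

end Pool.Agent.T9h62.DP
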