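import Pool.Agent.N662.SE.Main
import Mathlib.MeasureTheory.Measure.Hausdorff
import Mathlib.Topology.MetricSpace.HausdorffDimension

/-!
# Directed polymers: exceptional slopes and Hausdorff measures

Two confined polymers at slopes `v, v'` whose drifts satisfy `‖h' - h‖ ≤ K ‖v' - v‖ ^ s` cannot
exist at distance `n ^ (a-1)`; hence the drift is an expanding function of the slope on the set of
the exceptional slopes, which is therefore small.
-/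

set_option autoImplicit false

open MeasureTheory ProbabilityTheory Filter Topology

namespace Pool.Agent.T9h62.DP

open TH967.DP
open Pool.Agent.N662.SE
open Pool.Agent.N662.SD (pow_dom gap inter_ge ev_large)

variable {d : ℕ}

lemma pair_contra (hd : 1 ≤ d) (ac : Pool.Agent.N662.SD.S_AC) {Ω : Type}
    [MeasurableSpace Ω] {P : Measure Ω}
    [IsProbabilityMeasure P] {ω : ℕ → (Fin d → ℤ) → Ω → ℝ} (he : IsEnv P ω)
    (hnc : ¬ ∃ c : ℝ, ∀ᵐ x ∂P, ω 1 0 x = c) {β : ℝ} (hβ : 0 < β) {θ a c s K : ℝ}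
    (hθ1 : 1 / 2 ≤ θ) (hθ2 : θ < 1) (ha0 : 0 ≤ a) (hs : 0 < s) (hK : 0 ≤ K)
    (ha : a * (2 + 2 * s + d) < 1 + 2 * s) (ha' : a < 1 / d)
    (hc0 : 0 < c) (hc : c < (1 - d * a) / 2) :
    ∀ᶠ n : ℕ in atTop, ∀ v v' h h' : Fin d → ℝ,
      5 * (n : ℝ) ^ (a - 1) ≤ ‖v' - v‖ → ‖v' - v‖ ≤ 10 * (n : ℝ) ^ (a - 1) →
      ‖h' - h‖ ≤ K * ‖v' - v‖ ^ s → 3 / 4 ≤ P.real (ev ω β θ a c v h n) →
      ¬ 3 / 4 ≤ P.real (ev ω β θ a c v' h' n) := by
  classical
  have hdR : (1 : ℝ) ≤ d := by exact_mod_cast hd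
  obtain ⟨a₀, b₀, hab, hp, hm⟩ := gap (he.meas 1 0) hnc
  set K0 := 1 / (P.map (ω 1 0)).real (Set.Ici b₀) + 1 / (P.map (ω 1 0)).real (Set.Iic a₀) with hK0
  have hK0pos : 0 < K0 := by positivity
  set q := 1 - Real.exp (-(β * (b₀ - a₀))) with hq
  have hqpos : 0 < q := by
    rw [hq]
    have : Real.exp (-(β * (b₀ - a₀))) < 1 := by
      rw [← Real.exp_zero]
      apply Real.exp_lt_exp.2
      have := mul_pos hβ (sub_pos.2 hab)
      linarith
    linarith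
  have ha1 : a < 1 := by
    refine ha'.trans_le ?_
    rw [div_le_one (by linarith)]
    exact hdR
  have hda : (0 : ℝ) ≤ d * a := by positivity
  have hcc1 : c < 1 := by linarith
  set m := max (a - s * (1 - a)) c with hmdef
  have hm0 : 0 < m := lt_max_of_lt_right hc0
  have hm1 : 2 * m + d * a < 1 := by
    rcases max_choice (a - s * (1 - a)) c with h | h
    · rw [hmdef, h]
      nlinarith
    · rw [hmdef, h]; linarith
  set C0 := 12 * (10 : ℝ) ^ s * d * K + 4 with hC0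
  have hC0pos : 0 < C0 := by positivity
  have e1 := pow_dom hm1 (3 ^ d * K0 * C0 ^ 2 / ((1 - θ) * (q ^ 2 / 4)) + 1)
  filter_upwards [e1, eventually_ge_atTop 1] with n hn1 hn0
  intro v v' h h' hd1 hd2 hd3 hd4 hd5
  have hn2 : (1 : ℝ) ≤ n := by exact_mod_cast hn0
  have hn3 : (0 : ℝ) < n := by linarith
  have hna : 0 < (n : ℝ) ^ a := Real.rpow_pos_of_pos hn3 _
  have hrpos : 0 < 5 * (n : ℝ) ^ (a - 1) := by positivity
  have hr0 : 0 < ‖v' - v‖ := lt_of_lt_of_le hrpos hd1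
  have hnn : (n : ℝ) ^ (a - 1) * n = (n : ℝ) ^ a := by
    nth_rewrite 2 [← Real.rpow_one (n : ℝ)]
    rw [← Real.rpow_add hn3]
    congr 1
    ring
  -- the tubes are disjoint
  have hk : ∃ k, 5 * (n : ℝ) ^ (a - 1) ≤ |v' k - v k| := by
    by_contra hcon
    push Not at hcon
    have h1 : ‖v' - v‖ < 5 * (n : ℝ) ^ (a - 1) := by
      rw [pi_norm_lt_iff hrpos]
      intro k
      rw [Pi.sub_apply, Real.norm_eq_abs]
      exact hcon k
    linarith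
  have hvv : ∀ i : ℕ, θ * n ≤ i → 1 ≤ i → i ≤ n → ∃ k, 2 * (n : ℝ) ^ a < i * |v' k - v k| := by
    intro i hi _ _
    obtain ⟨k, hk⟩ := hk
    refine ⟨k, ?_⟩
    have h1 : (n : ℝ) / 2 ≤ i := by nlinarith
    calc 2 * (n : ℝ) ^ a < (5 * (n : ℝ) ^ a) / 2 := by linarith
      _ = n / 2 * (5 * (n : ℝ) ^ (a - 1)) := by rw [← hnn]; ring
      _ ≤ i * |v' k - v k| := mul_le_mul h1 hk hrpos.le (by positivity)
  -- the bound on R
  set R := (C0 - 2) * (n : ℝ) ^ m with hRdef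
  have hnm : 1 ≤ (n : ℝ) ^ m := Real.one_le_rpow hn2 hm0.le
  have hR0 : 0 ≤ R := by
    have : 0 ≤ C0 - 2 := by
      rw [hC0]
      have : 0 ≤ 12 * (10 : ℝ) ^ s * d * K := by positivity
      linarith
    positivity
  have hrs : ‖v' - v‖ ^ s ≤ (10 : ℝ) ^ s * (n : ℝ) ^ (s * (a - 1)) := by
    calc ‖v' - v‖ ^ s ≤ (10 * (n : ℝ) ^ (a - 1)) ^ s :=
          Real.rpow_le_rpow hr0.le hd2 hs.le
      _ = _ := by
          rw [Real.mul_rpow (by norm_num) (by positivity), ← Real.rpow_mul hn3.le]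
          congr 2
          ring
  have hq1 : (n : ℝ) ^ (s * (a - 1)) * (n : ℝ) ^ a = (n : ℝ) ^ (a - s * (1 - a)) := by
    rw [← Real.rpow_add hn3]
    congr 1
    ring
  have hm2 : (n : ℝ) ^ (a - s * (1 - a)) ≤ (n : ℝ) ^ m := Real.rpow_le_rpow_of_exponent_le hn2
    (le_max_left _ _)
  have hm3 : (n : ℝ) ^ c ≤ (n : ℝ) ^ m := Real.rpow_le_rpow_of_exponent_le hn2 (le_max_right _ _)
  set T := K * ((10 : ℝ) ^ s * (n : ℝ) ^ (s * (a - 1))) with hT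
  have hT0 : 0 ≤ T := by positivity
  have hc1 : ∀ k, |h' k - h k| ≤ T := fun k =>
    (norm_le_pi_norm (h' - h) k).trans (hd3.trans (mul_le_mul_of_nonneg_left hrs hK))
  have hc2 : ∀ k, |v' k - v k| ≤ 10 * (n : ℝ) ^ (a - 1) := fun k =>
    (norm_le_pi_norm (v' - v) k).trans hd2
  have hR2 : n * (∑ k, (h' k - h k) * (v' k - v k)) +
      2 * (∑ k, |h' k - h k|) * (n : ℝ) ^ a + 2 * (n : ℝ) ^ c ≤ R := by
    have s0 : ∑ k, (h' k - h k) * (v' k - v k) ≤ d * (T * (10 * (n : ℝ) ^ (a - 1))) := by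
      calc ∑ k, (h' k - h k) * (v' k - v k) ≤
          ∑ _k : Fin d, (T * (10 * (n : ℝ) ^ (a - 1))) := by
            apply Finset.sum_le_sum
            intro k _
            refine (le_abs_self _).trans ?_
            rw [abs_mul]
            exact mul_le_mul (hc1 k) (hc2 k) (abs_nonneg _) hT0
        _ = _ := by simp
    have s0' : ∑ k, |h' k - h k| ≤ d * T := by
      calc ∑ k, |h' k - h k| ≤ ∑ _k : Fin d, T :=
            Finset.sum_le_sum fun k _ => hc1 k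
        _ = _ := by simp
    have s1 : n * (∑ k, (h' k - h k) * (v' k - v k)) ≤
        n * (d * (T * (10 * (n : ℝ) ^ (a - 1)))) := mul_le_mul_of_nonneg_left s0 hn3.le
    have s2 : n * (d * (T * (10 * (n : ℝ) ^ (a - 1)))) =
        10 * (10 : ℝ) ^ s * d * K * (n : ℝ) ^ (a - s * (1 - a)) := by
      calc n * (d * (T * (10 * (n : ℝ) ^ (a - 1)))) =
          10 * (10 : ℝ) ^ s * d * K * ((n : ℝ) ^ (s * (a - 1)) * ((n : ℝ) ^ (a - 1) * n)) := by
            rw [hT]; ring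
        _ = _ := by rw [hnn, hq1]
    have s3 : 2 * (∑ k, |h' k - h k|) * (n : ℝ) ^ a ≤ 2 * (d * T) * (n : ℝ) ^ a :=
      mul_le_mul_of_nonneg_right (by linarith) hna.le
    have s4 : 2 * (d * T) * (n : ℝ) ^ a =
        2 * (10 : ℝ) ^ s * d * K * (n : ℝ) ^ (a - s * (1 - a)) := by
      calc 2 * (d * T) * (n : ℝ) ^ a =
          2 * (10 : ℝ) ^ s * d * K * ((n : ℝ) ^ (s * (a - 1)) * (n : ℝ) ^ a) := by
            rw [hT]; ring
        _ = _ := by rw [hq1]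
    have s5 : 12 * (10 : ℝ) ^ s * d * K * (n : ℝ) ^ (a - s * (1 - a)) ≤
        12 * (10 : ℝ) ^ s * d * K * (n : ℝ) ^ m :=
      mul_le_mul_of_nonneg_left hm2 (by positivity)
    have s7 : R = 12 * (10 : ℝ) ^ s * d * K * (n : ℝ) ^ m + 2 * (n : ℝ) ^ m := by
      rw [hRdef, hC0]; ring
    linarith
  have key := pair_bound hd ac he hab hp hm hβ hθ2.le hvv hR0 hR2
  have hhalf : 1 / 2 ≤ P.real {x | Real.exp (-(n : ℝ) ^ c) <
      prob β h (fun i y => ω i y x) n (tube θ v ((n : ℝ) ^ a) n) ∧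
      Real.exp (-(n : ℝ) ^ c) <
      prob β h' (fun i y => ω i y x) n (tube θ v' ((n : ℝ) ^ a) n)} :=
    inter_ge (measurableSet_ev he.meas β θ a c v' h' n) hd4 hd5
  set ρ : ℝ := ((rows θ n).card : ℝ) with hρ
  have hρ1 : (1 - θ) * n ≤ ρ := rows_card_ge (by linarith) n
  have hρ0 : 0 < ρ := lt_of_lt_of_le (mul_pos (by linarith) hn3) hρ1
  set W : ℝ := (3 * (n : ℝ) ^ a) ^ d with hW
  have hW0 : 0 < W := by positivity
  have hwin : ((win θ v ((n : ℝ) ^ a) n).card : ℝ) ≤ ρ * W := by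
    refine (card_win_le hna.le).trans ?_
    apply mul_le_mul_of_nonneg_left _ hρ0.le
    have : 1 ≤ (n : ℝ) ^ a := Real.one_le_rpow hn2 ha0
    exact pow_le_pow_left₀ (by positivity) (by linarith) d
  have hRC : R + 2 ≤ C0 * (n : ℝ) ^ m := by
    rw [hRdef]
    nlinarith
  have k1 : ρ * q * (1 / 2) ≤ C0 * (n : ℝ) ^ m * Real.sqrt (ρ * W * K0) := by
    calc ρ * q * (1 / 2) ≤ _ := mul_le_mul_of_nonneg_left hhalf (by positivity)
      _ ≤ _ := key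
      _ ≤ C0 * (n : ℝ) ^ m * Real.sqrt (ρ * W * K0) := by
        apply mul_le_mul hRC _ (Real.sqrt_nonneg _) (by positivity)
        apply Real.sqrt_le_sqrt
        exact mul_le_mul_of_nonneg_right hwin hK0pos.le
  have k2 : (ρ * q * (1 / 2)) ^ 2 ≤ (C0 * (n : ℝ) ^ m) ^ 2 * (ρ * W * K0) := by
    have h1 : (0 : ℝ) ≤ ρ * W * K0 := by positivity
    calc (ρ * q * (1 / 2)) ^ 2 ≤ (C0 * (n : ℝ) ^ m * Real.sqrt (ρ * W * K0)) ^ 2 :=
          pow_le_pow_left₀ (by positivity) k1 2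
      _ = _ := by rw [mul_pow, Real.sq_sqrt h1]
  have k3 : ρ * (q ^ 2 / 4) ≤ K0 * C0 ^ 2 * ((n : ℝ) ^ m) ^ 2 * W := by
    have h1 : ρ * (ρ * (q ^ 2 / 4)) ≤ ρ * (K0 * C0 ^ 2 * ((n : ℝ) ^ m) ^ 2 * W) := by
      calc ρ * (ρ * (q ^ 2 / 4)) = (ρ * q * (1 / 2)) ^ 2 := by ring
        _ ≤ _ := k2
        _ = _ := by ring
    exact le_of_mul_le_mul_left h1 hρ0
  have k4 : ((n : ℝ) ^ m) ^ 2 * W = 3 ^ d * (n : ℝ) ^ (2 * m + d * a) := by
    rw [hW, mul_pow, ← Real.rpow_natCast ((n : ℝ) ^ m) 2, ← Real.rpow_mul hn3.le,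
      ← Real.rpow_natCast ((n : ℝ) ^ a) d, ← Real.rpow_mul hn3.le, mul_left_comm,
      ← Real.rpow_add hn3]
    congr 2
    push_cast
    ring
  have k5 : (1 - θ) * (q ^ 2 / 4) * n ≤ 3 ^ d * K0 * C0 ^ 2 * (n : ℝ) ^ (2 * m + d * a) := by
    calc (1 - θ) * (q ^ 2 / 4) * n = (1 - θ) * n * (q ^ 2 / 4) := by ring
      _ ≤ ρ * (q ^ 2 / 4) := mul_le_mul_of_nonneg_right hρ1 (by positivity)
      _ ≤ _ := k3
      _ = K0 * C0 ^ 2 * (((n : ℝ) ^ m) ^ 2 * W) := by ring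
      _ = _ := by rw [k4]; ring
  rw [Real.rpow_one] at hn1
  have k6 : 0 < (1 - θ) * (q ^ 2 / 4) := mul_pos (by linarith) (by positivity)
  have k7 : 0 < (n : ℝ) ^ (2 * m + d * a) := Real.rpow_pos_of_pos hn3 _
  have k8 : (1 - θ) * (q ^ 2 / 4) *
      ((3 ^ d * K0 * C0 ^ 2 / ((1 - θ) * (q ^ 2 / 4)) + 1) * (n : ℝ) ^ (2 * m + d * a)) ≤
      (1 - θ) * (q ^ 2 / 4) * n := mul_le_mul_of_nonneg_left hn1 k6.le
  have k9 : (1 - θ) * (q ^ 2 / 4) *
      ((3 ^ d * K0 * C0 ^ 2 / ((1 - θ) * (q ^ 2 / 4)) + 1) * (n : ℝ) ^ (2 * m + d * a)) =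
      3 ^ d * K0 * C0 ^ 2 * (n : ℝ) ^ (2 * m + d * a) +
        (1 - θ) * (q ^ 2 / 4) * (n : ℝ) ^ (2 * m + d * a) := by
    rw [add_mul, mul_add, one_mul, div_mul_eq_mul_div, mul_div_cancel₀ _ k6.ne']
  have k10 : 0 < (1 - θ) * (q ^ 2 / 4) * (n : ℝ) ^ (2 * m + d * a) := mul_pos k6 k7
  linarith

end Pool.Agent.T9h62.DP
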