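import Mathlib

/-!
# A set which is expanded by a bounded map has small Hausdorff measure
-/

set_option autoImplicit false

open MeasureTheory Measure Filter Topology
open scoped NNReal ENNReal

namespace Pool.Agent.T9h62.DP

variable {d : ℕ}

/-- If a bounded map `g` satisfies `‖v' - v‖ ^ s' ≤ ‖g v' - g v‖` for all pairs of points of `B` at
distance less than `δ` then `B` has Hausdorff dimension at most `d s'`. -/
lemma hausdorff_zero {B : Set (Fin d → ℝ)} {g : (Fin d → ℝ) → (Fin d → ℝ)}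
    {M δ s' s : ℝ} (hd : 1 ≤ d) (hs' : 0 < s') (hs : s' < s) (hδ : 0 < δ)
    (hM : ∀ v ∈ B, ‖g v‖ ≤ M)
    (H : ∀ v ∈ B, ∀ v' ∈ B, ‖v' - v‖ < δ → ‖v' - v‖ ^ s' ≤ ‖g v' - g v‖) :
    μH[d * s] B = 0 := by
  have hdR : (1 : ℝ) ≤ d := by exact_mod_cast hd
  apply measure_null_of_locally_null
  intro x _
  refine ⟨B ∩ Metric.ball x (δ / 2),
    inter_mem_nhdsWithin B (Metric.ball_mem_nhds x (by linarith)), ?_⟩
  set A := B ∩ Metric.ball x (δ / 2) with hA
  have hAB : A ⊆ B := Set.inter_subset_left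
  have HA : ∀ v ∈ A, ∀ v' ∈ A, ‖v' - v‖ ^ s' ≤ ‖g v' - g v‖ := by
    intro v hv v' hv'
    apply H v (hAB hv) v' (hAB hv')
    rw [← dist_eq_norm]
    have h1 : dist v x < δ / 2 := hv.2
    have h2 : dist v' x < δ / 2 := hv'.2
    calc dist v' v ≤ dist v' x + dist v x := dist_triangle_right v' v x
      _ < δ := by linarith
  have hinj : Set.InjOn g A := by
    intro v hv v' hv' h
    have h1 := HA v hv v' hv'
    rw [h, sub_self, norm_zero] at h1
    by_contra hne
    have h2 : 0 < ‖v' - v‖ := norm_pos_iff.2 (sub_ne_zero.2 (Ne.symm hne))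
    have h3 := Real.rpow_pos_of_pos h2 s'
    linarith
  rcases Set.eq_empty_or_nonempty A with hemp | hne
  · rw [hemp, measure_empty]
  have : Nonempty (Fin d → ℝ) := ⟨0⟩
  set f := Function.invFunOn g A with hf
  have hfg : ∀ v ∈ A, f (g v) = v := fun v hv => hinj.leftInvOn_invFunOn hv
  have himg : A = f '' (g '' A) := by
    rw [Set.image_image]
    apply Set.Subset.antisymm
    · intro v hv
      exact ⟨v, hv, hfg v hv⟩
    · rintro _ ⟨v, hv, rfl⟩
      show f (g v) ∈ A
      rw [hfg v hv]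
      exact hv
  have hr0 : (0 : ℝ) < 1 / s' := by positivity
  have hrr : ((Real.toNNReal (1 / s') : ℝ≥0) : ℝ) = 1 / s' := Real.coe_toNNReal _ hr0.le
  have hhol : HolderOnWith 1 (Real.toNNReal (1 / s')) f (g '' A) := by
    rintro _ ⟨v, hv, rfl⟩ _ ⟨v', hv', rfl⟩
    rw [hfg v hv, hfg v' hv']
    have h1 := HA v' hv' v hv
    have h2 : ‖v - v'‖ ≤ ‖g v - g v'‖ ^ (1 / s') := by
      calc ‖v - v'‖ = (‖v - v'‖ ^ s') ^ (1 / s') := by
            rw [← Real.rpow_mul (norm_nonneg _), mul_one_div_cancel hs'.ne', Real.rpow_one]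
        _ ≤ _ := Real.rpow_le_rpow (Real.rpow_nonneg (norm_nonneg _) _) h1 hr0.le
    rw [edist_eq_enorm_sub, edist_eq_enorm_sub, ENNReal.coe_one, one_mul, hrr]
    rw [← ofReal_norm, ← ofReal_norm,
      ENNReal.ofReal_rpow_of_nonneg (norm_nonneg _) hr0.le]
    exact ENNReal.ofReal_le_ofReal h2
  have h1 : μH[d * s'] A ≤ volume (Metric.closedBall (0 : Fin d → ℝ) M) := by
    have h2 := hhol.hausdorffMeasure_image_le (Real.toNNReal_pos.2 hr0) (d := d * s')
      (by positivity)
    rw [← himg, ENNReal.coe_one, ENNReal.one_rpow, one_mul, hrr] at h2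
    have h3 : 1 / s' * (d * s') = (Fintype.card (Fin d) : ℝ) := by
      rw [Fintype.card_fin]
      field_simp
    rw [h3, hausdorffMeasure_pi_real] at h2
    refine h2.trans (measure_mono ?_)
    rintro _ ⟨v, hv, rfl⟩
    rw [mem_closedBall_zero_iff]
    exact hM v (hAB hv)
  have h2 : μH[d * s'] A ≠ ⊤ :=
    ne_top_of_le_ne_top (isCompact_closedBall _ _).measure_lt_top.ne h1
  rcases hausdorffMeasure_zero_or_top (show (d : ℝ) * s' < d * s by nlinarith) A with h3 | h3
  · exact h3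
  · exact absurd h3 h2

end Pool.Agent.T9h62.DP
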