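import Pool.Agent.T9h62.DP.Dir
import Pool.Agent.T9h62.DP.Haus

/-!
# Directed polymers: the exceptional slopes form a set of small Hausdorff dimension
-/

set_option autoImplicit false

open MeasureTheory ProbabilityTheory Filter Topology

namespace Pool.Agent.T9h62.DP

open TH967.DP
open Pool.Agent.N662.SE
open Pool.Agent.N662.SD (pow_dom gap inter_ge ev_large)

variable {d : ℕ}

/-- the choice of the time scale -/
lemma exists_scale {a r : ℝ} {N : ℕ} (ha0 : 0 ≤ a) (ha1 : a < 1) (hN : 1 ≤ N) (hr : 0 < r)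
    (hrN : r < 5 * (N : ℝ) ^ (a - 1)) :
    ∃ n : ℕ, N ≤ n ∧ 5 * (n : ℝ) ^ (a - 1) ≤ r ∧ r ≤ 10 * (n : ℝ) ^ (a - 1) := by
  have hN1 : (1 : ℝ) ≤ N := by exact_mod_cast hN
  have hN0 : (0 : ℝ) < N := by linarith
  have h1a : (0 : ℝ) < 1 - a := by linarith
  set x : ℝ := (5 / r) ^ (1 / (1 - a)) with hx
  have h5r : 0 < 5 / r := by positivity
  have hx0 : 0 < x := Real.rpow_pos_of_pos h5r _
  have hxa : x ^ (a - 1) = r / 5 := by
    rw [hx, ← Real.rpow_mul h5r.le]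
    have : 1 / (1 - a) * (a - 1) = -1 := by
      field_simp
      ring
    rw [this, Real.rpow_neg_one, inv_div]
  have hNx : (N : ℝ) < x := by
    have h1 : (N : ℝ) ^ (1 - a) < 5 / r := by
      rw [lt_div_iff₀ hr]
      have h2 : (N : ℝ) ^ (1 - a) * (N : ℝ) ^ (a - 1) = 1 := by
        rw [← Real.rpow_add hN0]
        simp
      have h3 : 0 < (N : ℝ) ^ (1 - a) := Real.rpow_pos_of_pos hN0 _
      calc (N : ℝ) ^ (1 - a) * r < (N : ℝ) ^ (1 - a) * (5 * (N : ℝ) ^ (a - 1)) :=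
            mul_lt_mul_of_pos_left hrN h3
        _ = 5 * ((N : ℝ) ^ (1 - a) * (N : ℝ) ^ (a - 1)) := by ring
        _ = 5 := by rw [h2, mul_one]
    calc (N : ℝ) = ((N : ℝ) ^ (1 - a)) ^ (1 / (1 - a)) := by
          rw [← Real.rpow_mul hN0.le, mul_one_div_cancel h1a.ne', Real.rpow_one]
      _ < x := Real.rpow_lt_rpow (by positivity) h1 (by positivity)
  refine ⟨⌈x⌉₊, ?_, ?_, ?_⟩
  · have : (N : ℝ) ≤ (⌈x⌉₊ : ℝ) := hNx.le.trans (Nat.le_ceil x)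
    exact_mod_cast this
  · have h1 : ((⌈x⌉₊ : ℕ) : ℝ) ^ (a - 1) ≤ x ^ (a - 1) :=
      Real.rpow_le_rpow_of_nonpos hx0 (Nat.le_ceil x) (by linarith)
    rw [hxa] at h1
    linarith
  · have h1 : ((⌈x⌉₊ : ℕ) : ℝ) ≤ 2 * x := by
      have := Nat.ceil_lt_add_one hx0.le
      linarith
    have h0 : (0 : ℝ) < (⌈x⌉₊ : ℝ) := lt_of_lt_of_le hx0 (Nat.le_ceil x)
    have h2 : (2 * x) ^ (a - 1) ≤ ((⌈x⌉₊ : ℕ) : ℝ) ^ (a - 1) :=
      Real.rpow_le_rpow_of_nonpos h0 h1 (by linarith)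
    rw [Real.mul_rpow (by norm_num) hx0.le, hxa] at h2
    have h3 : (2 : ℝ) ^ (-1 : ℝ) ≤ (2 : ℝ) ^ (a - 1) :=
      Real.rpow_le_rpow_of_exponent_le (by norm_num) (by linarith)
    rw [Real.rpow_neg_one] at h3
    have h4 : (2 : ℝ)⁻¹ * (r / 5) ≤ (2 : ℝ) ^ (a - 1) * (r / 5) :=
      mul_le_mul_of_nonneg_right h3 (by positivity)
    have h5 : (2 : ℝ)⁻¹ * (r / 5) = r / 10 := by ring
    linarith

/-- the exceptional slopes have vanishing Hausdorff measure of dimension `d s` -/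
lemma bad_null_H (hd : 1 ≤ d) (ac : Pool.Agent.N662.SD.S_AC) {Ω : Type}
    [MeasurableSpace Ω] {P : Measure Ω}
    [IsProbabilityMeasure P] {ω : ℕ → (Fin d → ℤ) → Ω → ℝ} (he : IsEnv P ω)
    (hnc : ¬ ∃ c : ℝ, ∀ᵐ x ∂P, ω 1 0 x = c) {β : ℝ} (hβ : 0 < β) {θ a c s : ℝ}
    (hθ1 : 1 / 2 ≤ θ) (hθ2 : θ < 1) (ha0 : 0 ≤ a) (hs : 0 < s)
    (ha : a * (2 + 2 * s + d) < 1 + 2 * s) (ha' : a < 1 / d)
    (hc0 : 0 < c) (hc : c < (1 - d * a) / 2) :
    Measure.hausdorffMeasure (d * s) (bad P ω β θ a c) = 0 := by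
  classical
  have hdR : (1 : ℝ) ≤ d := by exact_mod_cast hd
  have ha1 : a < 1 := by
    refine ha'.trans_le ?_
    rw [div_le_one (by linarith)]
    exact hdR
  have h1a : (0 : ℝ) < 1 - a := by linarith
  obtain ⟨s', hs1, hs2⟩ := exists_between (show max 0 ((a * (2 + d) - 1) / (2 * (1 - a))) < s by
    apply max_lt hs
    rw [div_lt_iff₀ (by linarith)]
    linarith)
  have hs3 := max_lt_iff.1 hs1
  have hs' : 0 < s' := hs3.1
  have has : a * (2 + 2 * s' + d) < 1 + 2 * s' := by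
    have := hs3.2
    rw [div_lt_iff₀ (by linarith)] at this
    linarith
  set BN : ℕ × ℕ → Set (Fin d → ℝ) := fun p => {v | ∃ h : Fin d → ℝ, ‖h‖ ≤ p.2 ∧
    ∀ n : ℕ, p.1 ≤ n → 3 / 4 ≤ P.real (ev ω β θ a c v h n)} with hBN
  have hsub : bad P ω β θ a c ⊆ ⋃ p, BN p := by
    rintro v ⟨h, hh⟩
    obtain ⟨N, hN⟩ := eventually_atTop.1 hh
    obtain ⟨M, hM⟩ := exists_nat_ge ‖h‖
    exact Set.mem_iUnion.2 ⟨(N, M), h, hM, fun n hn => hN n hn⟩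
  refine measure_mono_null hsub (measure_iUnion_null ?_)
  rintro ⟨N, M⟩
  set B := BN (N, M) with hB
  set g : (Fin d → ℝ) → (Fin d → ℝ) := fun v => if hv : v ∈ B then hv.choose else 0 with hg
  have hgs : ∀ v ∈ B, ‖g v‖ ≤ M ∧ ∀ n : ℕ, N ≤ n → 3 / 4 ≤ P.real (ev ω β θ a c v (g v) n) := by
    intro v hv
    simp only [hg, dif_pos hv]
    exact hv.choose_spec
  obtain ⟨n0, hn0⟩ := eventually_atTop.1 (pair_contra hd ac he hnc hβ (K := 1) hθ1 hθ2 ha0 hs'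
    zero_le_one has ha' hc0 hc)
  set N' := max (max N n0) 1 with hN'
  have hN1 : 1 ≤ N' := le_max_right _ _
  have hN2 : N ≤ N' := (le_max_left _ _).trans (le_max_left _ _)
  have hN3 : n0 ≤ N' := (le_max_right _ _).trans (le_max_left _ _)
  have hN0 : (0 : ℝ) < N' := by exact_mod_cast hN1
  apply hausdorff_zero (g := g) (M := M) (δ := 5 * (N' : ℝ) ^ (a - 1)) hd hs' hs2
    (by positivity) (fun v hv => (hgs v hv).1)
  intro v hv v' hv' hr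
  by_contra hcon
  push Not at hcon
  have hr0 : 0 < ‖v' - v‖ := by
    by_contra h0
    have h1 : ‖v' - v‖ = 0 := le_antisymm (not_lt.1 h0) (norm_nonneg _)
    rw [h1, Real.zero_rpow hs'.ne'] at hcon
    exact absurd hcon (not_lt.2 (norm_nonneg _))
  obtain ⟨n, hn1, hn2, hn3⟩ := exists_scale ha0 ha1 hN1 hr0 hr
  refine hn0 n (hN3.trans hn1) v v' (g v) (g v') hn2 hn3 ?_ ((hgs v hv).2 n (hN2.trans hn1))
    ((hgs v' hv').2 n (hN2.trans hn1))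
  rw [one_mul]
  exact hcon.le

/-- For `μH[d s]` almost every slope `v` and all drifts the polymer is not confined to tubes of
width `n ^ a`, `a < (1 + 2 s) / (2 + 2 s + d)`, around the line of slope `v`. -/
theorem main_dir (ac : Pool.Agent.N662.SD.S_AC) (zo : S_ZOD) (hd : 1 ≤ d) {Ω : Type}
    [MeasurableSpace Ω] {P : Measure Ω}
    [IsProbabilityMeasure P] {ω : ℕ → (Fin d → ℤ) → Ω → ℝ} (he : IsEnv P ω)
    (hnc : ¬ ∃ c : ℝ, ∀ᵐ x ∂P, ω 1 0 x = c) {β : ℝ} (hβ : 0 < β) {s : ℝ} (hs : 0 < s) :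
    ∀ᵐ v ∂(Measure.hausdorffMeasure (d * s) : Measure (Fin d → ℝ)), ∀ (h : Fin d → ℝ) (θ a c : ℝ),
    θ < 1 → 0 ≤ a → a < (1 + 2 * s) / (2 + 2 * s + d) → a < 1 / d → c < (1 - d * a) / 2 →
    ∀ᵐ x ∂P, ∃ᶠ n : ℕ in atTop,
      prob β h (fun i y => ω i y x) n (tube θ v ((n : ℝ) ^ a) n) ≤ Real.exp (-(n : ℝ) ^ c) := by
  have hdR : (1 : ℝ) ≤ d := by exact_mod_cast hd
  have hd0 : (0 : ℝ) < d := by linarith
  set N : Set (Fin d → ℝ) := ⋃ p : ℚ × ℚ × ℚ, ⋃ _ : 1 / 2 ≤ (p.1 : ℝ) ∧ (p.1 : ℝ) < 1 ∧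
    0 ≤ (p.2.1 : ℝ) ∧ (p.2.1 : ℝ) < (1 + 2 * s) / (2 + 2 * s + d) ∧ (p.2.1 : ℝ) < 1 / d ∧
    0 < (p.2.2 : ℝ) ∧ (p.2.2 : ℝ) < (1 - d * (p.2.1 : ℝ)) / 2,
    bad P ω β p.1 p.2.1 p.2.2 with hN
  have hN0 : Measure.hausdorffMeasure (d * s) N = 0 := by
    apply measure_iUnion_null
    intro p
    apply measure_iUnion_null
    rintro ⟨h1, h2, h3, h4, h4', h5, h6⟩
    rw [lt_div_iff₀ (by linarith)] at h4
    exact bad_null_H hd ac he hnc hβ h1 h2 h3 hs h4 h4' h5 h6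
  have hmem := measure_eq_zero_iff_ae_notMem.1 hN0
  filter_upwards [hmem] with v hv
  intro h θ a c hθ ha0 ha haD hc
  obtain ⟨θ', hθ1, hθ2⟩ := exists_rat_btwn (max_lt hθ (by norm_num : (1 / 2 : ℝ) < 1))
  have hac : a < (1 - 2 * c) / d := by
    rw [lt_div_iff₀ hd0]
    linarith
  have haa : a < min ((1 + 2 * s) / (2 + 2 * s + d)) (min (1 / (d : ℝ))
    ((1 - 2 * c) / (d : ℝ))) := lt_min ha (lt_min haD hac)
  obtain ⟨a', ha1, ha2⟩ := exists_rat_btwn haa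
  have ha3 := lt_min_iff.1 ha2
  have ha4 := lt_min_iff.1 ha3.2
  have h1d := ha4.1
  have h2d := ha4.2
  rw [lt_div_iff₀ hd0] at h1d h2d
  have hcc : max c 0 < (1 - d * (a' : ℝ)) / 2 := max_lt (by linarith) (by linarith)
  obtain ⟨c', hc1, hc2⟩ := exists_rat_btwn hcc
  have hθ3 := max_lt_iff.1 hθ1
  have hc3 := max_lt_iff.1 hc1
  have hnb : ¬ ∀ᶠ n : ℕ in atTop, 3 / 4 ≤ P.real (ev ω β θ' a' c' v h n) := by
    intro hcon
    apply hv
    rw [hN, Set.mem_iUnion]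
    refine ⟨(θ', a', c'), ?_⟩
    rw [Set.mem_iUnion]
    exact ⟨⟨hθ3.2.le, hθ2, by linarith, ha3.1, ha4.1, hc3.2, hc2⟩, h, hcon⟩
  have hz := zo d hd Ω P ω he β h (fun n => tube θ' v ((n : ℝ) ^ (a' : ℝ)) n)
    (fun n => (n : ℝ) ^ (c' : ℝ)) (fun hcon => hnb (ev_large hcon))
  filter_upwards [hz] with x hx
  obtain ⟨C, hC⟩ := hx
  have e1 := pow_dom hc3.1 2
  have e2 := pow_dom hc3.2 (2 * C)
  refine (hC.and_eventually (e1.and (e2.and (eventually_ge_atTop 1)))).mono ?_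
  rintro n ⟨h1, h2, h3, hn⟩
  have hn1 : (1 : ℝ) ≤ n := by exact_mod_cast hn
  rw [Real.rpow_zero, mul_one] at h3
  calc prob β h (fun i y => ω i y x) n (tube θ v ((n : ℝ) ^ a) n) ≤
      prob β h (fun i y => ω i y x) n (tube θ' v ((n : ℝ) ^ (a' : ℝ)) n) :=
        prob_mono _ _ _ (tube_mono hθ3.1.le (Real.rpow_le_rpow_of_exponent_le hn1 ha1.le))
    _ ≤ _ := h1
    _ ≤ _ := Real.exp_le_exp.2 (by linarith)

end Pool.Agent.T9h62.DP
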