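import Mathlib

/-!
# Hölder points of monotone functions and convex functions, outside sets of small Hausdorff measure
-/

set_option autoImplicit false

open MeasureTheory Measure Filter Topology Set
open scoped NNReal ENNReal

namespace Pool.Agent.T9h62.DP

lemma le_stieltjes {g : ℝ → ℝ} (hg : Monotone g) (a b : ℝ) :
    ENNReal.ofReal (g b - g a) ≤ hg.stieltjesFunction.measure (Icc a b) := by
  rw [StieltjesFunction.measure_Icc]
  apply ENNReal.ofReal_le_ofReal
  have h1 : g b ≤ hg.stieltjesFunction b := by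
    rw [hg.stieltjesFunction_eq]
    exact hg.le_rightLim le_rfl
  have h2 : Function.leftLim hg.stieltjesFunction a ≤ g a := by
    apply le_of_tendsto (hg.stieltjesFunction.mono.tendsto_leftLim a)
    filter_upwards [self_mem_nhdsWithin] with y hy
    rw [hg.stieltjesFunction_eq]
    exact hg.rightLim_le hy
  linarith

/-- The set of the points at which a monotone function does not satisfy a two-sided Hölder bound
with the exponent `s` has vanishing `s`-dimensional Hausdorff measure. -/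
lemma mono_holder {g : ℝ → ℝ} (hg : Monotone g) {s : ℝ} (hs : 0 < s) :
    μH[s] {t : ℝ | ∀ C : ℕ, ∃ r ∈ Ioc (0:ℝ) 1, C * r ^ s < g (t + r) - g (t - r)} = 0 := by
  set E := {t : ℝ | ∀ C : ℕ, ∃ r ∈ Ioc (0:ℝ) 1, C * r ^ s < g (t + r) - g (t - r)} with hE
  have hsub : E ⊆ ⋃ M : ℕ, E ∩ Icc (-(M:ℝ)) M := by
    intro t ht
    obtain ⟨M, hM⟩ := exists_nat_ge |t|
    exact mem_iUnion.2 ⟨M, ht, abs_le.1 hM⟩
  refine measure_mono_null hsub (measure_iUnion_null fun M => ?_)
  set F := E ∩ Icc (-(M:ℝ)) M with hF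
  set ν := hg.stieltjesFunction.measure with hν
  set V : ℝ≥0∞ := ν (Icc (-(M:ℝ) - 1) (M + 1)) with hV
  have hVtop : V ≠ ⊤ := by
    rw [hV, hν, StieltjesFunction.measure_Icc]
    exact ENNReal.ofReal_ne_top
  set G : ℝ := g (M + 1) - g (-(M:ℝ) - 1) with hG
  have hG0 : 0 ≤ G := by
    have : g (-(M:ℝ) - 1) ≤ g (M + 1) := hg (by
      have : (0:ℝ) ≤ M := Nat.cast_nonneg M
      linarith)
    linarith
  -- the coverings
  have cover : ∀ C : ℕ, ∃ (u : Set ℝ) (ρ : ℝ → ℝ), u ⊆ F ∧
      (∀ t ∈ F, 0 < ρ t ∧ ρ t ≤ 1 ∧ C * ρ t ^ s < g (t + ρ t) - g (t - ρ t)) ∧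
      u.PairwiseDisjoint (fun a => Metric.closedBall a (ρ a)) ∧
      F ⊆ ⋃ b : u, Metric.closedBall (b : ℝ) (5 * ρ b) := by
    intro C
    have h1 : ∀ t : ℝ, ∃ r : ℝ, t ∈ F → 0 < r ∧ r ≤ 1 ∧ C * r ^ s < g (t + r) - g (t - r) := by
      intro t
      by_cases ht : t ∈ F
      · obtain ⟨r, hr, hr2⟩ := ht.1 C
        exact ⟨r, fun _ => ⟨hr.1, hr.2, hr2⟩⟩
      · exact ⟨0, fun h => absurd h ht⟩
    choose ρ hρ using h1
    obtain ⟨u, hu1, hu2, hu3⟩ := Vitali.exists_disjoint_subfamily_covering_enlargement_closedBall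
      F (fun t => t) ρ 1 (fun t ht => (hρ t ht).2.1) 5 (by norm_num)
    refine ⟨u, ρ, hu1, hρ, hu2, ?_⟩
    intro t ht
    obtain ⟨b, hb, hb2⟩ := hu3 t ht
    exact mem_iUnion.2 ⟨⟨b, hb⟩, hb2 (Metric.mem_closedBall_self (hρ t ht).1.le)⟩
  choose u ρ hu hρ hdisj hcov using cover
  have hcount : ∀ C, (u C).Countable := by
    intro C
    apply (hdisj C).countable_of_nonempty_interior
    intro t ht
    have h1 := (hρ C t (hu C ht)).1
    exact ⟨t, mem_interior_iff_mem_nhds.2 (Metric.closedBall_mem_nhds t h1)⟩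
  have : ∀ C, Countable (u C) := fun C => (hcount C).to_subtype
  have hdiam : ∀ (t r : ℝ), Metric.ediam (Metric.closedBall t r) = ENNReal.ofReal (2 * r) := by
    intro t r
    rw [Real.closedBall_eq_Icc, Real.ediam_Icc]
    congr 1
    ring
  -- the bound on the radii
  set rad : ℕ → ℝ := fun C => 10 * (G / C) ^ (1 / s) with hrad
  have hrad0 : Tendsto (fun C => ENNReal.ofReal (rad C)) atTop (𝓝 0) := by
    have h1 : Tendsto (fun C : ℕ => G / (C:ℝ)) atTop (𝓝 0) :=
      tendsto_const_nhds.div_atTop tendsto_natCast_atTop_atTop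
    have h2 : Tendsto (fun C : ℕ => (G / (C:ℝ)) ^ (1 / s)) atTop (𝓝 ((0:ℝ) ^ (1 / s))) :=
      h1.rpow_const (Or.inr (by positivity))
    rw [Real.zero_rpow (by positivity)] at h2
    have h3 := h2.const_mul 10
    rw [mul_zero] at h3
    have h4 := ENNReal.tendsto_ofReal h3
    rwa [ENNReal.ofReal_zero] at h4
  have hradle : ∀ C : ℕ, 1 ≤ C → ∀ t ∈ F, 10 * ρ C t ≤ rad C := by
    intro C hC t ht
    obtain ⟨h1, h2, h3⟩ := hρ C t ht
    have hC0 : (0:ℝ) < C := by exact_mod_cast hC
    have h4 : g (t + ρ C t) - g (t - ρ C t) ≤ G := by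
      have h5 : g (t + ρ C t) ≤ g (M + 1) := hg (by linarith [ht.2.2])
      have h6 : g (-(M:ℝ) - 1) ≤ g (t - ρ C t) := hg (by linarith [ht.2.1])
      linarith
    have h5 : ρ C t ^ s ≤ G / C := by
      rw [le_div_iff₀ hC0]
      linarith
    have h6 : ρ C t ≤ (G / C) ^ (1 / s) := by
      calc ρ C t = (ρ C t ^ s) ^ (1 / s) := by
            rw [← Real.rpow_mul h1.le, mul_one_div_cancel hs.ne', Real.rpow_one]
        _ ≤ _ := Real.rpow_le_rpow (Real.rpow_nonneg h1.le _) h5 (by positivity)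
    simp only [hrad]
    linarith
  -- the sums
  have hsum : ∀ C : ℕ, 1 ≤ C →
      ∑' b : u C, Metric.ediam (Metric.closedBall (b : ℝ) (5 * ρ C b)) ^ s ≤
        ENNReal.ofReal ((10:ℝ) ^ s / C) * V := by
    intro C hC
    have hC0 : (0:ℝ) < C := by exact_mod_cast hC
    have h1 : ∀ b : u C, Metric.ediam (Metric.closedBall (b : ℝ) (5 * ρ C b)) ^ s ≤
        ENNReal.ofReal ((10:ℝ) ^ s / C) * ν (Metric.closedBall (b : ℝ) (ρ C b)) := by
      intro b
      obtain ⟨h1, h2, h3⟩ := hρ C b (hu C b.2)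
      rw [hdiam, ENNReal.ofReal_rpow_of_nonneg (by positivity) hs.le]
      have h4 : (2 * (5 * ρ C b)) ^ s ≤ (10:ℝ) ^ s / C * (g (b + ρ C b) - g (b - ρ C b)) := by
        have e1 : (2 * (5 * ρ C b)) ^ s = (10:ℝ) ^ s * ρ C b ^ s := by
          rw [← Real.mul_rpow (by norm_num) h1.le]
          congr 1
          ring
        rw [e1, div_mul_eq_mul_div, le_div_iff₀ hC0, mul_assoc]
        apply mul_le_mul_of_nonneg_left _ (by positivity)
        linarith
      calc ENNReal.ofReal ((2 * (5 * ρ C b)) ^ s) ≤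
          ENNReal.ofReal ((10:ℝ) ^ s / C * (g (b + ρ C b) - g (b - ρ C b))) :=
            ENNReal.ofReal_le_ofReal h4
        _ = ENNReal.ofReal ((10:ℝ) ^ s / C) *
            ENNReal.ofReal (g (b + ρ C b) - g (b - ρ C b)) :=
            ENNReal.ofReal_mul (by positivity)
        _ ≤ _ := by
            gcongr
            rw [Real.closedBall_eq_Icc]
            exact le_stieltjes hg _ _
    refine (ENNReal.tsum_le_tsum h1).trans ?_
    rw [ENNReal.tsum_mul_left]
    gcongr
    have h2 : ∑' b : u C, ν (Metric.closedBall (b : ℝ) (ρ C b)) =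
        ν (⋃ b ∈ u C, Metric.closedBall (b : ℝ) (ρ C b)) := by
      rw [measure_biUnion (hcount C) (hdisj C) (fun b _ => Metric.isClosed_closedBall.measurableSet)]
    rw [h2]
    apply measure_mono
    intro y hy
    simp only [mem_iUnion] at hy
    obtain ⟨b, hb, hyb⟩ := hy
    obtain ⟨h3, h4, _⟩ := hρ C b (hu C hb)
    have hb2 := (hu C hb).2
    rw [Real.closedBall_eq_Icc] at hyb
    exact ⟨by linarith [hyb.1, hb2.1], by linarith [hyb.2, hb2.2]⟩
  have key := hausdorffMeasure_le_liminf_tsum s F (l := atTop)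
    (fun C => ENNReal.ofReal (rad C)) hrad0 (fun C (b : u C) =>
      Metric.closedBall (b : ℝ) (5 * ρ C b)) (by
        filter_upwards [eventually_ge_atTop 1] with C hC b
        rw [hdiam]
        apply ENNReal.ofReal_le_ofReal
        have := hradle C hC b (hu C b.2)
        linarith) (Eventually.of_forall hcov)
  apply le_antisymm _ zero_le
  refine key.trans ?_
  have hlim : Tendsto (fun C : ℕ => ENNReal.ofReal ((10:ℝ) ^ s / C) * V) atTop (𝓝 0) := by
    have h1 : Tendsto (fun C : ℕ => (10:ℝ) ^ s / (C:ℝ)) atTop (𝓝 0) :=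
      tendsto_const_nhds.div_atTop tendsto_natCast_atTop_atTop
    have h2 := ENNReal.tendsto_ofReal h1
    rw [ENNReal.ofReal_zero] at h2
    have h3 := ENNReal.Tendsto.mul_const h2 (Or.inr hVtop)
    rwa [zero_mul] at h3
  calc liminf (fun C => ∑' b : u C, Metric.ediam (Metric.closedBall (b : ℝ) (5 * ρ C b)) ^ s) atTop
      ≤ liminf (fun C : ℕ => ENNReal.ofReal ((10:ℝ) ^ s / C) * V) atTop := by
        refine liminf_le_liminf ?_
        filter_upwards [eventually_ge_atTop 1] with C hC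
        exact hsum C hC
    _ = 0 := hlim.liminf_eq

/-- A convex function has at every point outside a set of vanishing `s`-dimensional Hausdorff
measure a tangent up to an error of order `1 + s`. -/
lemma convex_curv {f : ℝ → ℝ} (hf : ConvexOn ℝ univ f) {s : ℝ} (hs : 0 < s) :
    μH[s] {t : ℝ | ¬ ∃ v C : ℝ, 0 ≤ C ∧ ∀ r : ℝ, |r| ≤ 1 →
      f (t + r) ≤ f t + r * v + C * |r| ^ (1 + s)} = 0 := by
  have hsub : ∀ x : ℝ, ∃ m : ℝ, ∀ y, f x + m * (y - x) ≤ f y := by
    intro x
    have hne : (range fun y : Iio x => (f x - f y) / (x - y)).Nonempty :=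
      ⟨_, ⟨⟨x - 1, by simp⟩, rfl⟩⟩
    have hub : ∀ z, x < z → ∀ a ∈ range (fun y : Iio x => (f x - f y) / (x - y)),
        a ≤ (f z - f x) / (z - x) := by
      rintro z hz _ ⟨⟨y, hy⟩, rfl⟩
      exact hf.slope_mono_adjacent (mem_univ y) (mem_univ z) hy hz
    have hbdd : BddAbove (range fun y : Iio x => (f x - f y) / (x - y)) :=
      ⟨_, fun a ha => hub (x + 1) (by linarith) a ha⟩
    refine ⟨sSup (range fun y : Iio x => (f x - f y) / (x - y)), fun y => ?_⟩
    rcases lt_trichotomy y x with h | h | h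
    · have h1 : (f x - f y) / (x - y) ≤
          sSup (range fun y : Iio x => (f x - f y) / (x - y)) :=
        le_csSup hbdd ⟨⟨y, h⟩, rfl⟩
      rw [div_le_iff₀ (by linarith)] at h1
      nlinarith
    · subst h
      simp
    · have h1 : sSup (range fun y : Iio x => (f x - f y) / (x - y)) ≤
          (f y - f x) / (y - x) := csSup_le hne (hub y h)
      rw [le_div_iff₀ (by linarith)] at h1
      linarith
  choose g hg using hsub
  have hmono : Monotone g := by
    intro x y hxy
    rcases eq_or_lt_of_le hxy with h | h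
    · rw [h]
    · have h1 := hg x y
      have h2 := hg y x
      have h3 : (g x - g y) * (y - x) ≤ 0 := by nlinarith
      by_contra hc
      push Not at hc
      have : 0 < (g x - g y) * (y - x) := mul_pos (by linarith) (by linarith)
      linarith
  refine measure_mono_null ?_ (mono_holder hmono hs)
  intro t ht C
  by_contra hcon
  push Not at hcon
  apply ht
  refine ⟨g t, C, Nat.cast_nonneg C, fun r hr => ?_⟩
  rcases eq_or_ne r 0 with h0 | h0
  · subst h0
    rw [add_zero, zero_mul, add_zero, abs_zero, Real.zero_rpow (by linarith), mul_zero, add_zero]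
  have hr0 : 0 < |r| := abs_pos.2 h0
  have h1 := hcon |r| ⟨hr0, hr⟩
  have h2 := hg (t + r) t
  have h3 : r * (g (t + r) - g t) ≤ |r| * (C * |r| ^ s) := by
    rcases le_total 0 r with h | h
    · rw [abs_of_nonneg h] at h1 ⊢
      apply mul_le_mul_of_nonneg_left _ h
      have := hmono (show t - r ≤ t by linarith)
      linarith
    · rw [abs_of_nonpos h] at h1 ⊢
      have e1 : r * (g (t + r) - g t) = -r * (g t - g (t + r)) := by ring
      rw [e1]
      apply mul_le_mul_of_nonneg_left _ (by linarith)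
      have h4 := hmono (show t ≤ t + -r by linarith)
      have e2 : t - -r = t + r := by ring
      rw [e2] at h1
      linarith
  have h4 : |r| * (C * |r| ^ s) = C * |r| ^ (1 + s) := by
    rw [Real.rpow_add hr0, Real.rpow_one]
    ring
  rw [h4] at h3
  nlinarith

end Pool.Agent.T9h62.DP
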