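import Pool.Agent.T9h62.DP.Up
import Pool.Agent.T9h62.DP.Mono
import Pool.Agent.N662.SE.All

/-!
# Directed polymers in dimension `1 + 1`: the exceptional drifts form a set of small dimension
-/

set_option autoImplicit false

open MeasureTheory ProbabilityTheory Filter Topology

namespace Pool.Agent.T9h62.DP

open TH967.DP (Step pos energy)
open Pool.Agent.N662.SE

/-- tangents of convex functions on `Fin 1 → ℝ` -/
lemma curv_one {φ : (Fin 1 → ℝ) → ℝ} (hφ : ConvexOn ℝ Set.univ φ) {s : ℝ} (hs : 0 < s) :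
    ∀ᵐ h ∂(Measure.hausdorffMeasure s : Measure (Fin 1 → ℝ)), ∃ (v : Fin 1 → ℝ) (C : ℝ), 0 ≤ C ∧
      ∀ (k : Fin 1) (t : ℝ), |t| ≤ 1 →
        φ (h + Pi.single k t) ≤ φ h + t * v k + C * |t| ^ (1 + s) := by
  set f : ℝ → ℝ := fun t => φ (fun _ => t) with hf
  have hfc : ConvexOn ℝ Set.univ f := by
    refine ⟨convex_univ, ?_⟩
    intro x _ y _ a b ha hb hab
    have := hφ.2 (Set.mem_univ (fun _ => x)) (Set.mem_univ (fun _ => y)) ha hb hab
    have e : a • (fun _ : Fin 1 => x) + b • (fun _ : Fin 1 => y) =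
        fun _ : Fin 1 => a • x + b • y := by
      funext i
      simp
    rw [e] at this
    exact this
  have h1 := convex_curv hfc hs
  set e : (Fin 1 → ℝ) ≃ᵢ ℝ := IsometryEquiv.funUnique (Fin 1) ℝ with he
  rw [← e.hausdorffMeasure_preimage] at h1
  rw [ae_iff]
  refine measure_mono_null ?_ h1
  intro h hh hcon
  apply hh
  obtain ⟨v, C, hC, hv⟩ := hcon
  refine ⟨fun _ => v, C, hC, fun k t ht => ?_⟩
  have h2 := hv t ht
  have e1 : (fun _ : Fin 1 => e h) = h := by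
    funext i
    rw [Subsingleton.elim i 0]
    rfl
  have e2 : (fun _ : Fin 1 => e h + t) = h + Pi.single k t := by
    funext i
    have h3 : e h = h i := by
      rw [Subsingleton.elim i 0]
      rfl
    rw [Pi.add_apply, Subsingleton.elim k i, Pi.single_eq_same, h3]
  have h3 : f (e h + t) = φ (h + Pi.single k t) := by
    rw [hf, ← e2]
  have h4 : f (e h) = φ h := by
    show φ (fun _ : Fin 1 => e h) = φ h
    rw [e1]
  rw [h3, h4] at h2
  exact h2

/-- from the maximum norm to the Euclidean norm -/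
theorem up_euclid_s {d : ℕ} {Ω : Type} [MeasurableSpace Ω] {P : Measure Ω}
    {ω : ℕ → (Fin d → ℤ) → Ω → ℝ} {β b₀ s : ℝ} {h v : Fin d → ℝ} (hs : 0 < s)
    (hup : ∀ b c : ℝ, b₀ < b → b ≤ 1 → c < ((1 + s) * b - 1) / s →
      ∀ᵐ x ∂P, ∀ᶠ n : ℕ in atTop,
        1 - Real.exp (-(n : ℝ) ^ c) ≤ prob β h (fun i y => ω i y x) n
          {w | ∀ i : ℕ, i ≤ n → ∀ k, |(pos w i k : ℝ) - i * v k| ≤ (n : ℝ) ^ b})
    (b c : ℝ) (hb : b₀ < b) (hb1 : b ≤ 1) (hc : c < ((1 + s) * b - 1) / s) :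
    ∀ᵐ x ∂P, ∀ᶠ n : ℕ in atTop,
      1 - Real.exp (-(n : ℝ) ^ c) ≤ polymer β h (fun i y => ω i y x) n
        {w | ∀ i : ℕ, i ≤ n → dev v w i ≤ (n : ℝ) ^ b} := by
  have h1s : 0 < 1 + s := by linarith
  have hc' : (c * s + 1) / (1 + s) < b := by
    rw [lt_div_iff₀ hs] at hc
    rw [div_lt_iff₀ h1s]
    linarith
  obtain ⟨b', hb'1, hb'2⟩ := exists_between (max_lt hb hc')
  have hb3 := max_lt_iff.1 hb'1
  have hc2 : c < ((1 + s) * b' - 1) / s := by
    have := hb3.2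
    rw [div_lt_iff₀ h1s] at this
    rw [lt_div_iff₀ hs]
    linarith
  filter_upwards [hup b' c hb3.1 (by linarith) hc2] with x hx
  filter_upwards [hx, pow_dom' hb'2 d] with n hn hn2
  rw [polymer_eq]
  refine hn.trans (prob_mono _ _ _ ?_)
  intro w hw i hi
  exact (dev_le_of (Real.rpow_nonneg (Nat.cast_nonneg n) _) (hw i hi)).trans hn2

/-- The upper bounds at almost every drift with respect to the Hausdorff measure of dimension
`s`. -/
theorem upper_s (mgf : S_MGF) {Ω : Type} [MeasurableSpace Ω] (P : Measure Ω)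
    [IsProbabilityMeasure P] (ω : ℕ → (Fin 1 → ℤ) → Ω → ℝ) (he : IsEnv P ω)
    (hexp : ∀ b : ℝ, Integrable (fun x => Real.exp (b * ω 1 0 x)) P) (β : ℝ) {s : ℝ}
    (hs : 0 < s) :
    ∀ᵐ h ∂(Measure.hausdorffMeasure s : Measure (Fin 1 → ℝ)), ∃ v : Fin 1 → ℝ,
      (∀ ξ : ℝ, 0 < ξ → ξ < 1 → Concentrated P ω β h ξ → ∀ b c : ℝ,
        (1 + s * ξ) / (1 + s) < b → b ≤ 1 → c < ((1 + s) * b - 1) / s →
        ∀ᵐ x ∂P, ∀ᶠ n : ℕ in atTop,
          1 - Real.exp (-(n : ℝ) ^ c) ≤ polymer β h (fun i y => ω i y x) n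
            {w | ∀ i : ℕ, i ≤ n → dev v w i ≤ (n : ℝ) ^ b}) ∧
      (1 + s) * wander P ω β h v ≤ 1 + s * chiUp P ω β h := by
  have hd : 1 ≤ 1 := le_rfl
  have hc : S_CONC := Pool.Agent.N523.SE.CONC.main mgf
  have hsup : S_SUP := Pool.Agent.N50.SE.SUP.main hc
  have hcv : S_CVX := Pool.Agent.N50.SE.CVX.main hc
  have hdb : S_DBL := Pool.Agent.N97.SE.DBL.main hc
  have hr : S_RATE := Pool.Agent.N353.SE.Rate.main hsup hdb hcv
  have hi : S_ID := Pool.Agent.N951.SE.t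
  have hdx : S_DBLX := Pool.Agent.N803.SE.DBLX.main hc hi
  have hrx : S_RATEX := Pool.Agent.N316.SE.Ratex.main hr hdx
  obtain ⟨φ, hφ, hfr, hrate⟩ := hrx 1 hd Ω P ω he hexp β
  have h1s : 0 < 1 + s := by linarith
  filter_upwards [curv_one hφ hs] with h hh
  obtain ⟨v, C, hC, hcurv⟩ := hh
  have hup : ∀ ξ : ℝ, 0 < ξ → ξ < 1 → Concentrated P ω β h ξ → ∀ b c : ℝ,
      (1 + s * ξ) / (1 + s) < b → b ≤ 1 → c < ((1 + s) * b - 1) / s →
      ∀ᵐ x ∂P, ∀ᶠ n : ℕ in atTop,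
        1 - Real.exp (-(n : ℝ) ^ c) ≤ polymer β h (fun i y => ω i y x) n
          {w | ∀ i : ℕ, i ≤ n → dev v w i ≤ (n : ℝ) ^ b} := by
    intro ξ hξ0 hξ1 hξ
    rw [concentrated_iff hd fun h n => (hc 1 hd Ω P ω he hexp β h 0 0 n).2.1] at hξ
    obtain ⟨U, hU, hhU, α, C0, hα, hC'⟩ := hξ
    exact up_euclid_s hs (fun b c => upx_s hc hi Pool.Agent.N340.SE.pp hd P ω he hexp β hfr hrate
      hs hC hcurv U hU hhU ξ α C0 hξ0 hξ1 hα hC' b c)
  refine ⟨v, hup, ?_⟩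
  have key : ∀ ξ : ℝ, 0 < ξ → ξ < 1 → Concentrated P ω β h ξ →
      wander P ω β h v ≤ (1 + s * ξ) / (1 + s) := by
    intro ξ hξ0 hξ1 hξ
    by_contra hcon
    push Not at hcon
    have hlt1 : (1 + s * ξ) / (1 + s) < 1 := by
      rw [div_lt_one h1s]
      nlinarith
    obtain ⟨b, hb1, hb2⟩ := exists_between (lt_min hcon hlt1)
    have hb3 := lt_min_iff.1 hb2
    have hb4 : 0 < b := lt_of_le_of_lt (by positivity) hb1
    have hb5 : 0 < ((1 + s) * b - 1) / s := by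
      apply div_pos _ hs
      rw [div_lt_iff₀ h1s] at hb1
      nlinarith [mul_pos hs hξ0]
    have h1 := wander_le hd hb4 (by linarith : (0 : ℝ) < ((1 + s) * b - 1) / s / 2)
      (hup ξ hξ0 hξ1 hξ b (((1 + s) * b - 1) / s / 2) hb1 hb3.2.le (by linarith))
    linarith [hb3.1]
  -- the infimum over `ξ`
  have h0 : ((1 + s) * wander P ω β h v - 1) / s ≤ chiUp P ω β h := by
    apply le_csInf
    · exact ⟨1 / 2, by norm_num, concentrated_half hc hd he hexp β h⟩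
    · rintro ξ ⟨hξ0, hξ⟩
      rw [div_le_iff₀ hs]
      rcases lt_or_ge ξ 1 with h1 | h1
      · have := key ξ hξ0 h1 hξ
        rw [le_div_iff₀ h1s] at this
        linarith
      · have := key (1 / 2) (by norm_num) (by norm_num) (concentrated_half hc hd he hexp β h)
        rw [le_div_iff₀ h1s] at this
        nlinarith
  rw [div_le_iff₀ hs] at h0
  linarith

end Pool.Agent.T9h62.DP
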