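import Pool.Agent.N427.SE.UPX

/-!
# The upper bound for the wandering exponent at a drift where the free energy has the upper
# Hölder exponent `1 + s`

A version of `Pool/Agent/N427/SE/UPX.lean` with a general Hölder exponent.
-/

set_option autoImplicit false

open MeasureTheory ProbabilityTheory Filter Topology

namespace Pool.Agent.T9h62.DP

open TH967.DP Pool.Agent.N662.SE Pool.Agent.N700.SE.UPD Pool.Agent.N427.SE.UPX

/-- the deterministic estimate -/
lemma det' (hp : S_PP) {d : ℕ} (hd : 1 ≤ d) {β : ℝ} {h v : Fin d → ℝ} {η : ℕ → (Fin d → ℤ) → ℝ} {n : ℕ}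
    {fr : (Fin d → ℝ) → ℕ → ℝ} {φ : (Fin d → ℝ) → ℝ} {D E R σ Er : ℝ}
    (hfr : ∀ h n, fr h n ≤ n * φ h) (hlow : n * φ h ≤ fr h n + Er)
    (hcurv : ∀ (k : Fin d) (s : ℝ), s = σ ∨ s = -σ →
      φ (h + Pi.single k s) ≤ φ h + s * v k + D) (hD : 0 ≤ D)
    (hσ0 : 0 < σ)
    (ha : fr h n - E ≤ Real.log (part β h η n Set.univ))
    (hb : ∀ i ≤ n, ∀ k : Fin d, ∀ s : ℝ, s = σ ∨ s = -σ →
      Real.log (part β (h + Pi.single k s) η i Set.univ) ≤ fr (h + Pi.single k s) i + E)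
    (hc : ∀ i ≤ n, ∀ z : Fin d → ℤ, (∀ j, |z j| ≤ n) →
      Real.log (part β h (fun j y => η (i + j) (z + y)) (n - i) Set.univ) ≤ fr h (n - i) + E) :
    1 - 2 * d * (n + 1) * Real.exp (-(σ * R) + n * D + 3 * E + Er) ≤
      prob β h η n {w | ∀ i : ℕ, i ≤ n → ∀ k, |(pos w i k : ℝ) - i * v k| ≤ R} := by
  set A : Set (Fin n → Step d) :=
    {w | ∀ i : ℕ, i ≤ n → ∀ k, |(pos w i k : ℝ) - i * v k| ≤ R} with hA
  have hZ := part_univ_pos hd β h η n
  have piece : ∀ i ≤ n, ∀ k : Fin d, ∀ s : ℝ, s = σ ∨ s = -σ →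
      part β h η n {w | s * i * v k + σ * R ≤ s * (pos w i k : ℝ)} ≤
        Real.exp (n * φ h - σ * R + n * D + 2 * E) := by
    intro i hi k s hs
    have h1 := hp d β h η n i hi k s (s * i * v k + σ * R) (fr h (n - i) + E) (hc i hi)
    have h2 : part β (h + Pi.single k s) η i Set.univ ≤
        Real.exp (fr (h + Pi.single k s) i + E) :=
      (Real.log_le_iff_le_exp (part_univ_pos hd _ _ _ _)).1 (hb i hi k s hs)
    refine h1.trans ?_
    refine (mul_le_mul_of_nonneg_left h2 (Real.exp_pos _).le).trans ?_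
    rw [← Real.exp_add]
    apply Real.exp_le_exp.2
    have h3 := hfr h (n - i)
    have h4 := hfr (h + Pi.single k s) i
    have h5 := hcurv k s hs
    have h6 : (i : ℝ) * φ (h + Pi.single k s) ≤ i * (φ h + s * v k + D) :=
      mul_le_mul_of_nonneg_left h5 (Nat.cast_nonneg _)
    have hin : (i : ℝ) ≤ n := by exact_mod_cast hi
    have h7 : i * D ≤ n * D := mul_le_mul_of_nonneg_right hin hD
    have h8 : ((n - i : ℕ) : ℝ) = n - i := Nat.cast_sub hi
    rw [h8] at h3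
    linarith
  have hcov : part β h η n Aᶜ ≤ ∑ t ∈ Finset.range (n + 1) ×ˢ (Finset.univ : Finset (Fin d × Bool)),
      part β h η n {w | (if t.2.2 then σ else -σ) * t.1 * v t.2.1 + σ * R ≤
        (if t.2.2 then σ else -σ) * (pos w t.1 t.2.1 : ℝ)} := by
    apply part_le
    intro w hw
    have hw' : ¬ ∀ i : ℕ, i ≤ n → ∀ k, |(pos w i k : ℝ) - i * v k| ≤ R := hw
    push Not at hw'
    obtain ⟨i, hi, k, hik⟩ := hw'
    rcases lt_abs.1 hik with h1 | h1
    · refine ⟨(i, k, true), ?_, ?_⟩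
      · simp only [Finset.mem_product, Finset.mem_range, Finset.mem_univ, and_true]
        omega
      · show (if true then σ else -σ) * i * v k + σ * R ≤ (if true then σ else -σ) * (pos w i k : ℝ)
        simp only [if_true]
        have h2 := mul_lt_mul_of_pos_left h1 hσ0
        linarith
    · refine ⟨(i, k, false), ?_, ?_⟩
      · simp only [Finset.mem_product, Finset.mem_range, Finset.mem_univ, and_true]
        omega
      · show (if false then σ else -σ) * i * v k + σ * R ≤ (if false then σ else -σ) * (pos w i k : ℝ)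
        simp only [Bool.false_eq_true, if_false]
        have h2 := mul_lt_mul_of_pos_left h1 hσ0
        linarith
  have hcov2 : part β h η n Aᶜ ≤
      2 * d * (n + 1) * Real.exp (n * φ h - σ * R + n * D + 2 * E) := by
    refine hcov.trans ?_
    refine (Finset.sum_le_card_nsmul _ _
      (Real.exp (n * φ h - σ * R + n * D + 2 * E)) ?_).trans ?_
    · intro t ht
      simp only [Finset.mem_product, Finset.mem_range, Finset.mem_univ, and_true] at ht
      apply piece t.1 (by omega) t.2.1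
      by_cases h1 : t.2.2 = true
      · left; rw [if_pos h1]
      · right; rw [if_neg h1]
    · rw [nsmul_eq_mul, Finset.card_product, Finset.card_range, Finset.card_univ, Fintype.card_prod,
        Fintype.card_fin, Fintype.card_bool]
      push_cast
      apply le_of_eq
      ring
  have hZ2 : Real.exp (n * φ h - Er - E) ≤ part β h η n Set.univ := by
    rw [← Real.exp_log hZ]
    apply Real.exp_le_exp.2
    linarith
  have hsplit := part_compl β h η n A
  have hprob : prob β h η n A = 1 - part β h η n Aᶜ / part β h η n Set.univ := by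
    unfold prob
    rw [← hsplit] at hZ ⊢
    field_simp
    ring
  rw [hprob]
  have hq : part β h η n Aᶜ / part β h η n Set.univ ≤
      2 * d * (n + 1) * Real.exp (-(σ * R) + n * D + 3 * E + Er) := by
    rw [div_le_iff₀ hZ]
    calc part β h η n Aᶜ ≤ 2 * d * (n + 1) * Real.exp (n * φ h - σ * R + n * D + 2 * E) :=
          hcov2
      _ = 2 * d * (n + 1) * (Real.exp (-(σ * R) + n * D + 3 * E + Er) *
            Real.exp (n * φ h - Er - E)) := by
          rw [← Real.exp_add]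
          congr 2
          ring
      _ ≤ 2 * d * (n + 1) * (Real.exp (-(σ * R) + n * D + 3 * E + Er) *
            part β h η n Set.univ) := by
          apply mul_le_mul_of_nonneg_left _ (by positivity)
          exact mul_le_mul_of_nonneg_left hZ2 (Real.exp_pos _).le
      _ = _ := by ring
  linarith

theorem upx_s (hc : S_CONC) (hi : S_ID) (hp : S_PP) {d : ℕ} (hd : 1 ≤ d) {Ω : Type}
    [MeasurableSpace Ω] (P : Measure Ω)
    [IsProbabilityMeasure P] (ω : ℕ → (Fin d → ℤ) → Ω → ℝ) (hω : IsEnv P ω)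
    (hexp : ∀ b : ℝ, Integrable (fun x => Real.exp (b * ω 1 0 x)) P) (β : ℝ)
    {φ : (Fin d → ℝ) → ℝ} (hfr : ∀ (h : Fin d → ℝ) (n : ℕ), free P ω β h n ≤ n * φ h)
    (hrate : ∀ (U : Set (Fin d → ℝ)) (ξ α C0 : ℝ), 0 < ξ → ξ < 1 → 0 < α →
      Conc P ω β U ξ α C0 → ∃ C : ℝ, ∀ h ∈ U, ∀ n : ℕ,
      n * φ h ≤ free P ω β h n + C * (n : ℝ) ^ ξ * Real.log (n + 1))
    {s : ℝ} (hs : 0 < s) {h v : Fin d → ℝ} {C : ℝ} (hC : 0 ≤ C)
    (hcurv : ∀ (k : Fin d) (t : ℝ), |t| ≤ 1 →
      φ (h + Pi.single k t) ≤ φ h + t * v k + C * |t| ^ (1 + s)) (U : Set (Fin d → ℝ))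
    (hUo : IsOpen U) (hhU : h ∈ U) (ξ α C0 : ℝ) (hξ : 0 < ξ) (hξ1 : ξ < 1) (hα : 0 < α)
    (hU : Conc P ω β U ξ α C0) (b c : ℝ) (hb : (1 + s * ξ) / (1 + s) < b) (hb1 : b ≤ 1)
    (hcb : c < ((1 + s) * b - 1) / s) :
    ∀ᵐ x ∂P, ∀ᶠ n : ℕ in atTop,
      1 - Real.exp (-(n : ℝ) ^ c) ≤ prob β h (fun i y => ω i y x) n
        {w | ∀ i : ℕ, i ≤ n → ∀ k, |(pos w i k : ℝ) - i * v k| ≤ (n : ℝ) ^ b} := by
  set e : ℝ := ((1 + s) * b - 1) / s with he
  have hes : e * s = (1 + s) * b - 1 := by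
    rw [he]
    field_simp
  have hξe : ξ < e := by
    rw [he, lt_div_iff₀ hs]
    rw [div_lt_iff₀ (by linarith)] at hb
    linarith
  set b' : ℝ := (e + 1) / 2 with hb'
  have hb'2 : 2 * b' - 1 = e := by
    rw [hb']
    ring
  obtain ⟨C1, hC1⟩ := hrate U ξ α C0 hξ hξ1 hα hU
  obtain ⟨δ, hδ, hball⟩ := Metric.isOpen_iff.1 hUo h hhU
  obtain ⟨c1, hc1, hc1b⟩ := exists_between (show max c ξ < 2 * b' - 1 from
    max_lt (by rw [hb'2]; exact hcb) (by rw [hb'2]; exact hξe))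
  have hcc : c < c1 := lt_of_le_of_lt (le_max_left _ _) hc1
  have hc12 : ξ < c1 := lt_of_le_of_lt (le_max_right _ _) hc1
  obtain ⟨ε, hε0, hε1⟩ := exists_between (show 0 < c1 - ξ by linarith)
  have hC2 : 0 < 1 / (2 * C + 2) := by positivity
  have hC3 : 1 / (2 * C + 2) ≤ 1 := by
    rw [div_le_iff₀ (by positivity)]
    linarith
  set κ : ℝ := min ((1 / (2 * C + 2)) ^ (1 / s)) (δ / 2) with hκ
  have hκ0 : 0 < κ := lt_min (by positivity) (by positivity)
  have hκC : C * κ ^ s ≤ 1 / 2 := by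
    have h1 : κ ^ s ≤ 1 / (2 * C + 2) := by
      calc κ ^ s ≤ ((1 / (2 * C + 2)) ^ (1 / s)) ^ s :=
            Real.rpow_le_rpow hκ0.le (min_le_left _ _) hs.le
        _ = 1 / (2 * C + 2) := by
            rw [← Real.rpow_mul hC2.le, one_div_mul_cancel hs.ne', Real.rpow_one]
    calc C * κ ^ s ≤ C * (1 / (2 * C + 2)) := mul_le_mul_of_nonneg_left h1 hC
      _ ≤ 1 / 2 := by
        rw [mul_one_div, div_le_iff₀ (by positivity)]
        linarith
  have hκ1 : κ ≤ 1 := by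
    refine (min_le_left _ _).trans ?_
    exact Real.rpow_le_one hC2.le hC3 (by positivity)
  have hκδ : κ < δ := lt_of_le_of_lt (min_le_right _ _) (by linarith)
  have hmemU : ∀ (k : Fin d) (t : ℝ), |t| ≤ κ → h + Pi.single k t ∈ U := by
    intro k t ht
    apply hball
    rw [Metric.mem_ball, dist_eq_norm, add_sub_cancel_left]
    refine lt_of_le_of_lt ?_ hκδ
    rw [pi_norm_le_iff_of_nonneg hκ0.le]
    intro j
    by_cases hjk : j = k
    · rw [hjk, Pi.single_eq_same]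
      exact ht
    · rw [Pi.single_eq_of_ne hjk, norm_zero]
      exact hκ0.le
  -- the exceptional events
  let σ : ℕ → ℝ := fun n => κ * (n : ℝ) ^ ((b - 1) / s)
  have hσκ : ∀ n : ℕ, 1 ≤ n → σ n ≤ κ := by
    intro n hn
    have hn' : (1 : ℝ) ≤ n := by exact_mod_cast hn
    have h1 : (n : ℝ) ^ ((b - 1) / s) ≤ 1 :=
      Real.rpow_le_one_of_one_le_of_nonpos hn' (div_nonpos_of_nonpos_of_nonneg (by linarith) hs.le)
    calc κ * (n : ℝ) ^ ((b - 1) / s) ≤ κ * 1 := mul_le_mul_of_nonneg_left h1 hκ0.le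
      _ = κ := mul_one _
  have hσp : ∀ n : ℕ, 1 ≤ n → 0 < σ n := by
    intro n hn
    have hn' : (0 : ℝ) < n := by exact_mod_cast hn
    exact mul_pos hκ0 (Real.rpow_pos_of_pos hn' _)
  let sg : ℕ → Bool → ℝ := fun n t => if t then σ n else -σ n
  have hsgU : ∀ n : ℕ, 1 ≤ n → ∀ (k : Fin d) (t : Bool), h + Pi.single k (sg n t) ∈ U := by
    intro n hn k t
    apply hmemU
    have h1 := hσκ n hn
    have h2 := hσp n hn
    cases t
    · show |(-σ n)| ≤ κ
      rw [abs_neg, abs_of_pos h2]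
      exact h1
    · show |σ n| ≤ κ
      rw [abs_of_pos h2]
      exact h1
  obtain ⟨N0, hN0⟩ := eventually_atTop.1 ((ev_pow (1 / α) ε (c1 - ξ) hε1).and
    (eventually_ge_atTop (1 : ℕ)))
  have test : ∀ n : ℕ, N0 ≤ n → ∀ h' ∈ U, ∀ (m : ℕ) (z : Fin d → ℤ) (j : ℕ), j ≤ n →
      P {x | (n : ℝ) ^ c1 ≤ |lw ω β h' m z j x - free P ω β h' j|} ≤
        ENNReal.ofReal (2 * Real.exp (|C0| - (n : ℝ) ^ ε)) := by
    intro n hn h' hh' m z j hj
    obtain ⟨hn1, hn2⟩ := hN0 n hn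
    refine (testX hc hi hd P ω hω hexp β hξ hα hU c1 n hn2 h' hh' m z j hj).trans ?_
    apply ENNReal.ofReal_le_ofReal
    rw [sub_eq_add_neg |C0|, Real.exp_add]
    have h1 : |C0| ≤ Real.exp |C0| := by
      have := Real.add_one_le_exp |C0|
      linarith
    have h2 : Real.exp (-(α * (n : ℝ) ^ (c1 - ξ))) ≤ Real.exp (-(n : ℝ) ^ ε) := by
      apply Real.exp_le_exp.2
      apply neg_le_neg
      calc (n : ℝ) ^ ε = α * (1 / α * (n : ℝ) ^ ε) := by field_simp
        _ ≤ α * (n : ℝ) ^ (c1 - ξ) := mul_le_mul_of_nonneg_left hn1 hα.le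
    calc |C0| * Real.exp (-(α * (n : ℝ) ^ (c1 - ξ))) ≤
          Real.exp |C0| * Real.exp (-(n : ℝ) ^ ε) :=
          mul_le_mul h1 h2 (Real.exp_pos _).le (Real.exp_pos _).le
      _ ≤ 2 * (Real.exp |C0| * Real.exp (-(n : ℝ) ^ ε)) := by
          have : 0 < Real.exp |C0| * Real.exp (-(n : ℝ) ^ ε) := by positivity
          linarith
  let box : ℕ → Finset (Fin d → ℤ) := fun n => Finset.Icc (fun _ => -(n : ℤ)) (fun _ => (n : ℤ))
  let B1 : ℕ → ℕ × Fin d × Bool → Set Ω := fun n t =>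
    {x | (n : ℝ) ^ c1 ≤ |lw ω β (h + Pi.single t.2.1 (sg n t.2.2)) 0 0 t.1 x -
      free P ω β (h + Pi.single t.2.1 (sg n t.2.2)) t.1|}
  let B2 : ℕ → ℕ × (Fin d → ℤ) → Set Ω := fun n t =>
    {x | (n : ℝ) ^ c1 ≤ |lw ω β h t.1 t.2 (n - t.1) x - free P ω β h (n - t.1)|}
  let T1 : ℕ → Finset (ℕ × Fin d × Bool) := fun n => Finset.range (n + 1) ×ˢ Finset.univ
  let T2 : ℕ → Finset (ℕ × (Fin d → ℤ)) := fun n => Finset.range (n + 1) ×ˢ box n
  let S : ℕ → Set Ω := fun n => if N0 ≤ n then (⋃ t ∈ T1 n, B1 n t) ∪ (⋃ t ∈ T2 n, B2 n t) else ∅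
  have hbox : ∀ n, ((box n).card : ℝ) = (2 * n + 1) ^ d := by
    intro n
    have h1 : (box n).card = (2 * n + 1) ^ d := by
      show (Finset.Icc (fun _ : Fin d => -(n : ℤ)) (fun _ => (n : ℤ))).card = _
      rw [Pi.card_Icc]
      simp only [Int.card_Icc, Finset.prod_const, Finset.card_univ, Fintype.card_fin]
      congr 1
      omega
    rw [h1]
    push_cast
    ring
  have hS : ∀ n, P (S n) ≤ ENNReal.ofReal (((2 * d * (n + 1) + (n + 1) * (2 * n + 1) ^ d : ℝ)) *
      (2 * Real.exp (|C0| - (n : ℝ) ^ ε))) := by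
    intro n
    by_cases hn : N0 ≤ n
    · show P (if N0 ≤ n then (⋃ t ∈ T1 n, B1 n t) ∪ (⋃ t ∈ T2 n, B2 n t) else ∅) ≤ _
      rw [if_pos hn]
      set p : ENNReal := ENNReal.ofReal (2 * Real.exp (|C0| - (n : ℝ) ^ ε)) with hpd
      have b1 : P (⋃ t ∈ T1 n, B1 n t) ≤ (T1 n).card • p := by
        refine (measure_biUnion_finset_le _ _).trans (Finset.sum_le_card_nsmul _ _ _ ?_)
        intro t ht
        have ht1 : t.1 < n + 1 := Finset.mem_range.1 (Finset.mem_product.1 ht).1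
        exact test n hn _ (hsgU n (hN0 n hn).2 _ _) _ _ _ (by omega)
      have b2 : P (⋃ t ∈ T2 n, B2 n t) ≤ (T2 n).card • p := by
        refine (measure_biUnion_finset_le _ _).trans (Finset.sum_le_card_nsmul _ _ _ ?_)
        intro t ht
        exact test n hn _ hhU _ _ _ (Nat.sub_le _ _)
      have c1' : ((T1 n).card : ℝ) = 2 * d * (n + 1) := by
        show (((Finset.range (n + 1) ×ˢ (Finset.univ : Finset (Fin d × Bool))).card : ℕ) : ℝ) = _
        rw [Finset.card_product, Finset.card_range, Finset.card_univ, Fintype.card_prod,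
          Fintype.card_fin, Fintype.card_bool]
        push_cast
        ring
      have c2' : ((T2 n).card : ℝ) = (n + 1) * (2 * n + 1) ^ d := by
        show (((Finset.range (n + 1) ×ˢ box n).card : ℕ) : ℝ) = _
        rw [Finset.card_product, Finset.card_range, Nat.cast_mul, hbox]
        push_cast
        ring
      refine (measure_union_le _ _).trans ((add_le_add b1 b2).trans ?_)
      rw [← add_nsmul, nsmul_eq_mul, hpd, ← ENNReal.ofReal_natCast,
        ← ENNReal.ofReal_mul (Nat.cast_nonneg _)]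
      apply ENNReal.ofReal_le_ofReal
      rw [Nat.cast_add, c1', c2']
    · show P (if N0 ≤ n then (⋃ t ∈ T1 n, B1 n t) ∪ (⋃ t ∈ T2 n, B2 n t) else ∅) ≤ _
      rw [if_neg hn, measure_empty]
      exact zero_le
  have hfin : ∑' n, P (S n) ≠ ⊤ := by
    refine ne_top_of_le_ne_top ?_ (ENNReal.tsum_le_tsum hS)
    exact (summ d |C0| ε hε0).tsum_ofReal_ne_top
  filter_upwards [ae_eventually_notMem hfin] with x hx
  filter_upwards [hx, asyX hd C1 κ b' c c1 ξ hκ0 hξ hc12 hcc hc1b, eventually_ge_atTop N0]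
    with n hxn hasy hn
  have hn1 : 1 ≤ n := (hN0 n hn).2
  have hnp : (0 : ℝ) < n := by exact_mod_cast hn1
  have hxn' : x ∉ (⋃ t ∈ T1 n, B1 n t) ∪ (⋃ t ∈ T2 n, B2 n t) := by
    have h1 : x ∉ (if N0 ≤ n then (⋃ t ∈ T1 n, B1 n t) ∪ (⋃ t ∈ T2 n, B2 n t) else ∅) := hxn
    rwa [if_pos hn] at h1
  rw [Set.mem_union, not_or] at hxn'
  obtain ⟨x1, x2⟩ := hxn'
  have y1 : ∀ i ≤ n, ∀ (k : Fin d) (t : Bool),
      |lw ω β (h + Pi.single k (sg n t)) 0 0 i x - free P ω β (h + Pi.single k (sg n t)) i| <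
        (n : ℝ) ^ c1 := by
    intro i hi k t
    by_contra hcon
    push Not at hcon
    apply x1
    rw [Set.mem_iUnion₂]
    refine ⟨(i, k, t), ?_, hcon⟩
    exact Finset.mem_product.2 ⟨Finset.mem_range.2 (by show i < n + 1; omega), Finset.mem_univ _⟩
  have y2 : ∀ i ≤ n, ∀ z : Fin d → ℤ, (∀ j, |z j| ≤ n) →
      |lw ω β h i z (n - i) x - free P ω β h (n - i)| < (n : ℝ) ^ c1 := by
    intro i hi z hz
    by_contra hcon
    push Not at hcon
    apply x2
    rw [Set.mem_iUnion₂]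
    refine ⟨(i, z), ?_, hcon⟩
    refine Finset.mem_product.2 ⟨Finset.mem_range.2 (by show i < n + 1; omega), ?_⟩
    show z ∈ Finset.Icc (fun _ : Fin d => -(n : ℤ)) (fun _ => (n : ℤ))
    rw [Finset.mem_Icc]
    exact ⟨fun j => (abs_le.1 (hz j)).1, fun j => (abs_le.1 (hz j)).2⟩
  have hσ0 : 0 < σ n := hσp n hn1
  have hσ1 : σ n ≤ 1 := (hσκ n hn1).trans hκ1
  have hcurv' : ∀ (k : Fin d) (t : ℝ), t = σ n ∨ t = -σ n →
      φ (h + Pi.single k t) ≤ φ h + t * v k + C * (σ n) ^ (1 + s) := by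
    intro k t ht
    rcases ht with rfl | rfl
    · have h1 := hcurv k (σ n) (by rw [abs_of_pos hσ0]; exact hσ1)
      rwa [abs_of_pos hσ0] at h1
    · have h1 := hcurv k (-σ n) (by rw [abs_neg, abs_of_pos hσ0]; exact hσ1)
      rwa [abs_neg, abs_of_pos hσ0] at h1
  have hdet := det' (β := β) (h := h) (v := v) (η := fun i y => ω i y x) (n := n)
    (fr := fun h n => free P ω β h n) (φ := φ) (D := C * (σ n) ^ (1 + s)) (E := (n : ℝ) ^ c1)
    (R := (n : ℝ) ^ b)
    (σ := σ n) (Er := C1 * (n : ℝ) ^ ξ * Real.log (n + 1)) hp hd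
    (fun h n => hfr h n) (hC1 h hhU n) hcurv'
    (mul_nonneg hC (Real.rpow_nonneg hσ0.le _)) hσ0
    (by
      have h1 := y2 0 (Nat.zero_le _) 0 (fun j => by simp)
      rw [Nat.sub_zero, lw_zero] at h1
      have h2 := (abs_lt.1 h1).1
      linarith)
    (by
      intro i hi k t ht
      rcases ht with rfl | rfl
      · have h1 := y1 i hi k true
        rw [lw_zero] at h1
        have h2 := (abs_lt.1 h1).2
        have e : sg n true = σ n := rfl
        rw [e] at h2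
        linarith
      · have h1 := y1 i hi k false
        rw [lw_zero] at h1
        have h2 := (abs_lt.1 h1).2
        have e : sg n false = -σ n := rfl
        rw [e] at h2
        linarith)
    (by
      intro i hi z hz
      have h1 := (abs_lt.1 (y2 i hi z hz)).2
      have e : Real.log (part β h (fun j y => ω (i + j) (z + y) x) (n - i) Set.univ) =
        lw ω β h i z (n - i) x := rfl
      show Real.log (part β h (fun j y => ω (i + j) (z + y) x) (n - i) Set.univ) ≤ _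
      rw [e]
      linarith)
  refine le_trans ?_ hdet
  have hexp1 : -(σ n * (n : ℝ) ^ b) + n * (C * (σ n) ^ (1 + s)) ≤
      -(κ / 2 * (n : ℝ) ^ (2 * b' - 1)) := by
    rw [hb'2]
    have e1 : σ n * (n : ℝ) ^ b = κ * (n : ℝ) ^ e := by
      show κ * (n : ℝ) ^ ((b - 1) / s) * (n : ℝ) ^ b = _
      rw [mul_assoc, ← Real.rpow_add hnp]
      congr 2
      rw [he]
      field_simp
      ring
    have e2 : (n : ℝ) * (σ n) ^ (1 + s) = κ ^ (1 + s) * (n : ℝ) ^ e := by
      show (n : ℝ) * (κ * (n : ℝ) ^ ((b - 1) / s)) ^ (1 + s) = _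
      rw [Real.mul_rpow hκ0.le (by positivity), ← Real.rpow_mul hnp.le]
      have e3 : (n : ℝ) * (n : ℝ) ^ ((b - 1) / s * (1 + s)) = (n : ℝ) ^ e := by
        nth_rewrite 1 [← Real.rpow_one (n : ℝ)]
        rw [← Real.rpow_add hnp]
        congr 1
        rw [he]
        field_simp
        ring
      rw [← e3]
      ring
    have e4 : κ ^ (1 + s) = κ * κ ^ s := by
      rw [Real.rpow_add hκ0, Real.rpow_one]
    have hX : 0 ≤ κ * (n : ℝ) ^ e := by positivity
    have h3 : C * κ ^ s * (κ * (n : ℝ) ^ e) ≤ 1 / 2 * (κ * (n : ℝ) ^ e) :=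
      mul_le_mul_of_nonneg_right hκC hX
    calc -(σ n * (n : ℝ) ^ b) + n * (C * (σ n) ^ (1 + s)) =
          -(σ n * (n : ℝ) ^ b) + C * (n * (σ n) ^ (1 + s)) := by ring
      _ = -(κ * (n : ℝ) ^ e) + C * κ ^ s * (κ * (n : ℝ) ^ e) := by
          rw [e1, e2, e4]; ring
      _ ≤ _ := by linarith
  have hfinal : 2 * (d : ℝ) * (n + 1) * Real.exp (-(σ n * (n : ℝ) ^ b) + n * (C * (σ n) ^ (1 + s)) +
      3 * (n : ℝ) ^ c1 + C1 * (n : ℝ) ^ ξ * Real.log (n + 1)) ≤ Real.exp (-(n : ℝ) ^ c) := by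
    refine le_trans ?_ hasy
    apply mul_le_mul_of_nonneg_left _ (by positivity)
    apply Real.exp_le_exp.2
    linarith
  linarith

end Pool.Agent.T9h62.DP
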